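import Pool.Agent.P.MP_c8d52e_an.AD.Main

namespace Pool.Agent.Results.MP_c8d52e_an.AllDegrees

/-- For every degree `d ≥ 2` the map `H (x, y) = (y, x + y ^ d)` has small saddle cycles, and
small elliptic cycles whose multipliers are not roots of unity. -/
theorem result :
    ∀ d : ℕ, 2 ≤ d → ∀ H : ℂ × ℂ → ℂ × ℂ, (∀ x y : ℂ, H (x, y) = (y, x + y ^ d)) →
      (∀ U ∈ nhds (0 : ℂ × ℂ), ∃ p ∈ Function.periodicPts H,
        (∀ k : ℕ, H^[k] p ∈ U \ {0}) ∧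
        ∃ l₁ l₂ : ℂ,
          (fderiv ℂ (H^[Function.minimalPeriod H p]) p).toLinearMap.charpoly.roots = {l₁, l₂} ∧
          ‖l₁‖ < 1 ∧ 1 < ‖l₂‖) ∧
      (∀ U ∈ nhds (0 : ℂ × ℂ), ∃ p ∈ Function.periodicPts H,
        (∀ k : ℕ, H^[k] p ∈ U \ {0}) ∧
        ∃ l₁ l₂ : ℂ,
          (fderiv ℂ (H^[Function.minimalPeriod H p]) p).toLinearMap.charpoly.roots = {l₁, l₂} ∧
          ‖l₁‖ = 1 ∧ ‖l₂‖ = 1 ∧ ∀ n : ℕ, 0 < n → l₁ ^ n ≠ 1 ∧ l₂ ^ n ≠ 1) := by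
  intro d hd H hH
  obtain ⟨e, rfl⟩ : ∃ e, d = e + 1 := ⟨d - 1, by omega⟩
  obtain rfl : H = Pool.Agent.P.MP_c8d52e_an.AD.hen e := funext fun p => hH p.1 p.2
  exact ⟨fun U hU => (Pool.Agent.P.MP_c8d52e_an.AD.small_cycles (by omega) U hU).1,
    fun U hU => (Pool.Agent.P.MP_c8d52e_an.AD.small_cycles (by omega) U hU).2⟩

end Pool.Agent.Results.MP_c8d52e_an.AllDegrees
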